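import Mathlib.LinearAlgebra.QuadraticForm.Basic
import Mathlib.Data.Fin.VecNotation
import Mathlib.Tactic.FinCases
import Mathlib.Tactic.FieldSimp
import Mathlib.Tactic.LinearCombination

/-!
# The identity (⋆) fails for generalized sharped cubic forms

Over every field in which `2` and `3` are invertible there is a generalized sharped cubic form on
`F³` which does not satisfy (⋆).  It is obtained from the ordinary sharped cubic form `xyz` of
`F × F × F`: for every symmetric bilinear form `Δ` with `Δ(·, c) = 0` the cubic form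
`N(r) = N₀(r) - Δ(r#, r)` together with the old sharp map is a generalized sharped cubic form.
-/

namespace Pool.Agent.Results.MP_aa3754_al.StarFails

universe u

section defs

variable {F : Type*} [Field F] {V : Type*} [AddCommGroup V] [Module F V]

/-- `N` is a cubic form: `N(x + λ y) = N(x) + λ N(x,y) + λ² N(y,x) + λ³ N(y)` with `N(x,y)`
quadratic in `x` and linear in `y`. -/
def IsCubicForm (N : V → F) : Prop :=
  ∃ D : V → V → F, (∀ x, IsLinearMap F (D x)) ∧
    (∀ y, ∃ Q : QuadraticForm F V, ∀ x, D x y = Q x) ∧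
    ∀ (x y : V) (l : F), N (x + l • y) = N x + l * D x y + l ^ 2 * D y x + l ^ 3 * N y

/-- the complete linearization `N(v, u, w)` -/
def lin (N : V → F) (v u w : V) : F :=
  N (v + u + w) - N (v + u) - N (v + w) - N (u + w) + N u + N v + N w

/-- `T(r) = N(r, c, c) / 2` -/
def T (N : V → F) (c r : V) : F := lin N r c c / 2

/-- `S(r, q) = N(r, q, c)` -/
def S (N : V → F) (c r q : V) : F := lin N r q c

/-- `N(r, q) = N(r, r, q) / 2` -/
def N2 (N : V → F) (r q : V) : F := lin N r r q / 2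

/-- the form `(r, q) = T(r) T(q) - S(r, q) - Δ(r, q)` -/
def form (N : V → F) (Δ : V →ₗ[F] V →ₗ[F] F) (c r q : V) : F :=
  T N c r * T N c q - S N c r q - Δ r q

/-- the sharp product `r # q = (r + q)# - r# - q#` -/
def sharpProd (sh : QuadraticMap F V V) (r q : V) : V := sh (r + q) - sh r - sh q

/-- `(N, Δ, #, c)` is a generalized sharped cubic form. -/
structure IsGeneralizedSharpedCubicForm (N : V → F) (Δ : V →ₗ[F] V →ₗ[F] F)
    (sh : QuadraticMap F V V) (c : V) : Prop where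
  cubic : IsCubicForm N
  base : N c = 1
  symm : ∀ r q, Δ r q = Δ q r
  orth : ∀ r, Δ r c = 0
  trace : ∀ r q, form N Δ c (sharpProd sh r q) r + form N Δ c (sh r) q = 3 * N2 N r q
  adjoint : ∀ r, sh (sh r) = (N r + Δ (sh r) r) • r
  unit : ∀ r, sharpProd sh c r = T N c r • c - r

/-- the identity (⋆) -/
def Star (N : V → F) (Δ : V →ₗ[F] V →ₗ[F] F) (sh : QuadraticMap F V V) (c : V) : Prop :=
  ∀ r q s : V, Δ (sharpProd sh r q) s - Δ r (sharpProd sh q s) =
    (1 / 3) * (T N c s * Δ r q - T N c r * Δ q s)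

end defs

section example1

variable (F : Type u) [Field F]

/-- the bilinear map behind the sharp map of `F × F × F` -/
def shB : (Fin 3 → F) →ₗ[F] (Fin 3 → F) →ₗ[F] (Fin 3 → F) :=
  LinearMap.mk₂ F (fun x y => ![x 1 * y 2, x 2 * y 0, x 0 * y 1])
    (by intro x y z; ext i; fin_cases i <;> simp [add_mul])
    (by intro a x z; ext i; fin_cases i <;> simp [mul_assoc])
    (by intro x y z; ext i; fin_cases i <;> simp [mul_add])
    (by intro a x z; ext i; fin_cases i <;> simp [mul_left_comm])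

/-- the sharp map `(x, y, z) ↦ (y z, z x, x y)` -/
def sh0 : QuadraticMap F (Fin 3 → F) (Fin 3 → F) := LinearMap.BilinMap.toQuadraticMap (shB F)

theorem sh0_apply (x : Fin 3 → F) : sh0 F x = ![x 1 * x 2, x 2 * x 0, x 0 * x 1] := rfl

/-- `Δ(r, q) = (r₀ - r₁)(q₀ - q₁) / 3` -/
def del : (Fin 3 → F) →ₗ[F] (Fin 3 → F) →ₗ[F] F :=
  LinearMap.mk₂ F (fun x y => 3⁻¹ * ((x 0 - x 1) * (y 0 - y 1)))
    (by intro x y z; simp only [Pi.add_apply]; ring)
    (by intro a x z; simp only [Pi.smul_apply, smul_eq_mul]; ring)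
    (by intro x y z; simp only [Pi.add_apply]; ring)
    (by intro a x z; simp only [Pi.smul_apply, smul_eq_mul]; ring)

theorem del_apply (x y : Fin 3 → F) : del F x y = 3⁻¹ * ((x 0 - x 1) * (y 0 - y 1)) := rfl

/-- `N(x, y, z) = x y z + z (x - y)² / 3` -/
def nrm (x : Fin 3 → F) : F := x 0 * x 1 * x 2 + 3⁻¹ * (x 2 * (x 0 - x 1) ^ 2)

/-- the base point `(1, 1, 1)` -/
def one3 : Fin 3 → F := fun _ => 1

/-- the polarization `N(x, y)`, quadratic in `x` and linear in `y` -/
def pol (x y : Fin 3 → F) : F :=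
  y 0 * x 1 * x 2 + x 0 * y 1 * x 2 + x 0 * x 1 * y 2 + 3⁻¹ * (y 2 * (x 0 - x 1) ^ 2 +
    2 * x 2 * (x 0 - x 1) * (y 0 - y 1))

/-- for fixed `y` a bilinear map whose diagonal is `pol · y` -/
def polB (y : Fin 3 → F) : (Fin 3 → F) →ₗ[F] (Fin 3 → F) →ₗ[F] F :=
  LinearMap.mk₂ F (fun x z => y 0 * x 1 * z 2 + x 0 * y 1 * z 2 + x 0 * z 1 * y 2 +
      3⁻¹ * (y 2 * ((x 0 - x 1) * (z 0 - z 1)) + 2 * x 2 * (z 0 - z 1) * (y 0 - y 1)))
    (by intro x y z; simp only [Pi.add_apply]; ring)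
    (by intro a x z; simp only [Pi.smul_apply, smul_eq_mul]; ring)
    (by intro x y z; simp only [Pi.add_apply]; ring)
    (by intro a x z; simp only [Pi.smul_apply, smul_eq_mul]; ring)

theorem polB_apply (y x z : Fin 3 → F) : polB F y x z =
    y 0 * x 1 * z 2 + x 0 * y 1 * z 2 + x 0 * z 1 * y 2 +
      3⁻¹ * (y 2 * ((x 0 - x 1) * (z 0 - z 1)) + 2 * x 2 * (z 0 - z 1) * (y 0 - y 1)) := rfl

theorem cubic : IsCubicForm (nrm F) := by
  refine ⟨pol F, fun x => ⟨?_, ?_⟩,
    fun y => ⟨LinearMap.BilinMap.toQuadraticMap (polB F y), ?_⟩, ?_⟩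
  · intro a b; simp only [pol, Pi.add_apply]; ring
  · intro a b; simp only [pol, Pi.smul_apply, smul_eq_mul]; ring
  · intro x
    rw [LinearMap.BilinMap.toQuadraticMap_apply, polB_apply]
    simp only [pol]; ring
  · intro x y l
    simp only [pol, nrm, Pi.add_apply, Pi.smul_apply, smul_eq_mul]; ring

variable (h2 : (2 : F) ≠ 0) (h3 : (3 : F) ≠ 0)

include h2 in
theorem T_eq (r : Fin 3 → F) : T (nrm F) (one3 F) r = r 0 + r 1 + r 2 := by
  unfold T lin
  rw [div_eq_iff h2]
  simp only [nrm, one3, Pi.add_apply]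
  ring

theorem S_eq (r q : Fin 3 → F) : S (nrm F) (one3 F) r q =
    r 0 * q 1 + r 1 * q 0 + r 0 * q 2 + r 2 * q 0 + r 1 * q 2 + r 2 * q 1 +
      3⁻¹ * (2 * (r 0 - r 1) * (q 0 - q 1)) := by
  unfold S lin
  simp only [nrm, one3, Pi.add_apply]
  ring

include h2 in
theorem N2_eq (r q : Fin 3 → F) : N2 (nrm F) r q = pol F r q := by
  unfold N2 lin
  rw [div_eq_iff h2]
  simp only [nrm, pol, Pi.add_apply]
  ring

theorem sharpProd_eq (r q : Fin 3 → F) : sharpProd (sh0 F) r q =
    ![r 1 * q 2 + r 2 * q 1, r 2 * q 0 + r 0 * q 2, r 0 * q 1 + r 1 * q 0] := by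
  unfold sharpProd
  rw [sh0_apply, sh0_apply, sh0_apply]
  ext i
  fin_cases i <;> simp <;> ring

include h2 h3 in
theorem form_eq (r q : Fin 3 → F) :
    form (nrm F) (del F) (one3 F) r q = r 0 * q 1 + r 1 * q 0 + r 2 * q 2 := by
  unfold form
  rw [T_eq F h2, T_eq F h2, S_eq, del_apply]
  linear_combination (-(r 0 - r 1) * (q 0 - q 1)) * (inv_mul_cancel₀ h3)

include h2 h3 in
theorem isGen : IsGeneralizedSharpedCubicForm (nrm F) (del F) (sh0 F) (one3 F) where
  cubic := cubic F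
  base := by simp [nrm, one3]
  symm := by intro r q; rw [del_apply, del_apply]; ring
  orth := by intro r; simp [del_apply, one3]
  trace := by
    intro r q
    rw [form_eq F h2 h3, form_eq F h2 h3, N2_eq F h2, sharpProd_eq, sh0_apply]
    simp only [pol, Matrix.cons_val_zero, Matrix.cons_val_one, Matrix.cons_val]
    linear_combination (-(q 2 * (r 0 - r 1) ^ 2 + 2 * r 2 * (r 0 - r 1) * (q 0 - q 1))) *
      (inv_mul_cancel₀ h3)
  adjoint := by
    intro r
    rw [sh0_apply, sh0_apply, del_apply]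
    ext i
    fin_cases i <;> simp [nrm] <;> ring
  unit := by
    intro r
    rw [sharpProd_eq, T_eq F h2]
    ext i
    fin_cases i <;> simp [one3] <;> ring

include h2 h3 in
theorem notStar : ¬ Star (nrm F) (del F) (sh0 F) (one3 F) := by
  intro h
  have h1 := h ![1, 0, 0] ![1, 0, 0] ![0, 0, 1]
  rw [sharpProd_eq, sharpProd_eq, del_apply, del_apply, del_apply, del_apply, T_eq F h2,
    T_eq F h2] at h1
  simp [h3] at h1
  exact h2 (by linear_combination h1)

end example1

/-- **(⋆) fails.** Over every field `F` with `2 ≠ 0` and `3 ≠ 0` there is a generalized sharped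
cubic form on `F³`, with nondegenerate form `(·, ·)`, that does not satisfy (⋆). -/
theorem result (F : Type u) [Field F] (h2 : (2 : F) ≠ 0) (h3 : (3 : F) ≠ 0) :
    ∃ (N : (Fin 3 → F) → F) (Δ : (Fin 3 → F) →ₗ[F] (Fin 3 → F) →ₗ[F] F)
      (sh : QuadraticMap F (Fin 3 → F) (Fin 3 → F)) (c : Fin 3 → F),
      IsGeneralizedSharpedCubicForm N Δ sh c ∧ (∀ r, (∀ q, form N Δ c r q = 0) → r = 0) ∧
        ¬ Star N Δ sh c := by
  refine ⟨nrm F, del F, sh0 F, one3 F, isGen F h2 h3, ?_, notStar F h2 h3⟩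
  intro r hr
  have h0 := hr ![0, 1, 0]
  have h1 := hr ![1, 0, 0]
  have h4 := hr ![0, 0, 1]
  rw [form_eq F h2 h3] at h0 h1 h4
  simp at h0 h1 h4
  ext i
  fin_cases i <;> simp [h0, h1, h4]

end Pool.Agent.Results.MP_aa3754_al.StarFails
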